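import Pool.Agent.L5helper57.TD.Corr
import Pool.Agent.L5helper57.TD.Mem

/-!
# Deciding whether the total and the sub-total domination number are equal is NP-complete

Reduction from 3SAT. For a formula with `m ≥ 1` clauses and variables `x_0, …, x_{v-1}`, `v = 3m`,
the graph has a hub adjacent to many leaves and to all `2v` literal vertices, for each variable many
common neighbours of its two literal vertices, and a vertex for each clause adjacent to the literals
in it. Every total dominating set contains the hub and a literal of each variable, so
`γ_t ≥ v + 1`, with equality if and only if the formula is satisfiable. The numbers of leaves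
and of copies are such that the sub-total domination number is `v + 1` in all cases: the hub and
the other `v - 1` largest degrees sum to less than `n`, but the degrees of the hub and of one literal
of each variable sum to at least `n`, as `v ≥ m + 1`.
-/

namespace Pool.Agent.Results.MP_bfbf95_lc.TDSEQComplete

open Pool.Agent.NPC Pool.Agent.H692R2 Pool.Agent.NPC.L5h57.TD

/-- TDS-EQ is NP-complete: it is in NP, and NP-hard under polynomial-time many-one reductions.
Third part: every language in NP has a polynomial-time many-one reduction to TDS-EQ all of whose
outputs are (codes of) graphs without isolated vertices. -/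
theorem result : InNPP TDSEQ ∧ NPHardP TDSEQ ∧
    ∀ L : Set (List Bool), InNP L → ∃ f : List Bool → FinGraph,
      PolyTime (fun x => bits (f x)) ∧ (∀ x, NoIsolated (f x).graph) ∧
        ∀ x, x ∈ L ↔ gammaT (f x).graph = subT (f x).graph := by
  refine ⟨inNPP, ?_, ?_⟩
  · refine HardI.toNPHardP ?_
    intro L hL
    obtain ⟨f, hf, hpr, hfL⟩ := hardPr L hL
    exact ⟨f, hf, fun x => (hfL x).trans ⟨fun h => ⟨hpr x, h⟩, fun h => h.2⟩⟩
  · intro L hL
    obtain ⟨f, hf, hpr, hfL⟩ := hardPr L hL
    exact ⟨f, PC.toPolyTime hf, hpr, hfL⟩

end Pool.Agent.Results.MP_bfbf95_lc.TDSEQComplete
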